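import Pool.Agent.helper83.SB.Spec

/-!
Row sb:DEC of the project MP_d2d7b9_gt: a decreasing family of finite measures converges on all
measurable sets.
-/

open scoped Pointwise ContDiff ENNReal
open MeasureTheory Set Filter Topology

namespace Pool.Agent.helper83.SB

open Pool.Agent.helper83.SC

/-- The limit of a decreasing sequence of finite measures. -/
theorem DEC_seq {X : Type*} [MeasurableSpace X] (T : ℕ → Measure X)
    (hfin : ∀ k, IsFiniteMeasure (T k)) (hanti : ∀ k, T (k + 1) ≤ T k) :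
    ∃ S : Measure X, ∀ A, MeasurableSet A → S A = ⨅ k, T k A := by
  have := hfin 0
  have hle0 : ∀ k, T k ≤ T 0 := by
    intro k
    induction k with
    | zero => exact le_rfl
    | succ k ih => exact (hanti k).trans ih
  have hac : ∀ k, T k ≪ T 0 := fun k => Measure.absolutelyContinuous_of_le (hle0 k)
  have hf : ∀ k, (T 0).withDensity ((T k).rnDeriv (T 0)) = T k := by
    intro k
    have := hfin k
    exact Measure.withDensity_rnDeriv_eq _ _ (hac k)
  have hint : ∀ k A, MeasurableSet A → ∫⁻ x in A, (T k).rnDeriv (T 0) x ∂(T 0) = T k A := by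
    intro k A hA
    rw [← withDensity_apply _ hA, hf k]
  have hmono : ∀ k, (T (k + 1)).rnDeriv (T 0) ≤ᵐ[T 0] (T k).rnDeriv (T 0) := by
    intro k
    refine ae_le_of_forall_setLIntegral_le_of_sigmaFinite (Measure.measurable_rnDeriv _ _)
      fun s hs _ => ?_
    rw [hint _ s hs, hint _ s hs]
    exact hanti k s
  refine ⟨(T 0).withDensity fun x => ⨅ k, (T k).rnDeriv (T 0) x, fun A hA => ?_⟩
  rw [withDensity_apply _ hA, lintegral_iInf_ae (fun k => Measure.measurable_rnDeriv _ _)
    (fun k => ae_restrict_of_ae (hmono k))]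
  · exact iInf_congr fun k => hint k A hA
  · rw [hint 0 A hA]
    exact measure_ne_top _ _

theorem DEC_of : DEC_stmt := by
  intro n T hfin hmono
  have hε : ∀ k : ℕ, (0 : ℝ) < 1 / ((k : ℝ) + 1) := fun k => Nat.one_div_pos_of_nat
  have hε1 : ∀ k : ℕ, 1 / ((k : ℝ) + 1) ≤ 1 := by
    intro k
    rw [div_le_one (by positivity)]
    have : (0 : ℝ) ≤ k := Nat.cast_nonneg k
    linarith
  obtain ⟨T', hT'⟩ : ∃ T' : ℕ → Measure (E n), T' = fun k : ℕ => T (1 / ((k : ℝ) + 1)) := ⟨_, rfl⟩
  have hfin' : ∀ k, IsFiniteMeasure (T' k) := by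
    intro k
    rw [hT']
    exact hfin _ (hε k)
  have hanti : ∀ k, T' (k + 1) ≤ T' k := by
    intro k
    rw [hT']
    refine hmono _ _ (hε _) ?_ (hε1 k)
    have h := Nat.one_div_le_one_div (α := ℝ) (Nat.le_succ k)
    simpa using h
  have hanti' : ∀ A, Antitone fun k => T' k A := fun A =>
    antitone_nat_of_succ_le fun k => hanti k A
  obtain ⟨S, hS⟩ := DEC_seq T' hfin' hanti
  have hSle : ∀ ε : ℝ, 0 < ε → ε ≤ 1 → S ≤ T ε := by
    intro ε h1 h2
    obtain ⟨k, hk⟩ := exists_nat_one_div_lt h1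
    refine Measure.le_iff.2 fun A hA => ?_
    rw [hS A hA]
    refine (iInf_le _ k).trans ?_
    rw [hT']
    exact hmono _ _ (hε k) hk.le h2 A
  have hf1 : IsFiniteMeasure (T 1) := hfin 1 one_pos
  have hSfin : IsFiniteMeasure S := by
    refine ⟨lt_of_le_of_lt (hSle 1 one_pos le_rfl univ) (measure_lt_top _ _)⟩
  have hlim : ∀ U, MeasurableSet U →
      Tendsto (fun ε => (T ε U).toReal) (𝓝[>] 0) (𝓝 (S U).toReal) := by
    intro U hU
    have h1 : Tendsto (fun k => (T' k U).toReal) atTop (𝓝 (S U).toReal) := by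
      rw [hS U hU]
      refine (ENNReal.tendsto_toReal ?_).comp (tendsto_atTop_iInf (hanti' U))
      rw [← hS U hU]
      exact measure_ne_top _ _
    rw [Metric.tendsto_nhdsWithin_nhds]
    intro δ hδ
    obtain ⟨k, hk⟩ := (Metric.tendsto_atTop.1 h1) δ hδ
    refine ⟨1 / ((k : ℝ) + 1), hε k, fun {ε} hε0 hεk => ?_⟩
    have h2 : 0 < ε := hε0
    have h3 : ε < 1 / ((k : ℝ) + 1) := by
      rw [Real.dist_eq, sub_zero, abs_of_pos h2] at hεk
      exact hεk
    have h4 : ε ≤ 1 := h3.le.trans (hε1 k)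
    have := hfin ε h2
    have := hfin' k
    have h5 : (S U).toReal ≤ (T ε U).toReal :=
      ENNReal.toReal_mono (measure_ne_top _ _) (hSle ε h2 h4 U)
    have h6 : (T ε U).toReal ≤ (T' k U).toReal := by
      refine ENNReal.toReal_mono (measure_ne_top _ _) ?_
      rw [hT']
      exact hmono ε _ h2 h3.le (hε1 k) U
    have h7 := hk k le_rfl
    rw [Real.dist_eq, abs_lt] at h7 ⊢
    constructor <;> linarith [h7.1, h7.2]
  refine ⟨S, hSfin, hSle, hlim, ?_⟩
  rintro g hg ⟨C, hC⟩
  have hint : ∀ μ : Measure (E n), IsFiniteMeasure μ → Integrable g μ := fun μ hμ =>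
    (integrable_const C).mono' hg.aestronglyMeasurable (Eventually.of_forall fun x => by
      rw [Real.norm_eq_abs]
      exact hC x)
  rw [tendsto_iff_norm_sub_tendsto_zero]
  have h0 : Tendsto (fun ε => |C| * ((T ε univ).toReal - (S univ).toReal)) (𝓝[>] 0) (𝓝 0) := by
    have h1 := ((hlim univ MeasurableSet.univ).sub_const (S univ).toReal).const_mul |C|
    rwa [sub_self, mul_zero] at h1
  refine squeeze_zero' (Eventually.of_forall fun _ => norm_nonneg _) ?_ h0
  have hev : ∀ᶠ ε : ℝ in 𝓝[>] 0, 0 < ε ∧ ε ≤ 1 := by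
    have h1 : Ioc (0 : ℝ) 1 ∈ 𝓝[>] (0 : ℝ) := Ioc_mem_nhdsGT one_pos
    exact h1
  filter_upwards [hev] with ε hε2
  have hTf := hfin ε hε2.1
  have hle := hSle ε hε2.1 hε2.2
  have h1 := Measure.sub_add_cancel_of_le hle
  have hRf : IsFiniteMeasure (T ε - S) :=
    ⟨lt_of_le_of_lt (Measure.sub_le (μ := T ε) (ν := S) univ) (measure_lt_top _ _)⟩
  have h2 : ∫ x, g x ∂(T ε) - ∫ x, g x ∂S = ∫ x, g x ∂(T ε - S) := by
    conv_lhs => rw [← h1]
    rw [integral_add_measure (hint _ hRf) (hint _ hSfin)]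
    ring
  have h3 : (T ε - S).real univ = (T ε univ).toReal - (S univ).toReal := by
    have h4 : (T ε univ) = (T ε - S) univ + S univ := by
      conv_lhs => rw [← h1]
      rfl
    rw [h4, ENNReal.toReal_add (measure_ne_top _ _) (measure_ne_top _ _)]
    simp [Measure.real]
  rw [h2]
  refine (norm_integral_le_of_norm_le_const (C := |C|) (Eventually.of_forall fun x => ?_)).trans ?_
  · rw [Real.norm_eq_abs]
    exact (hC x).trans (le_abs_self C)
  · rw [h3]

end Pool.Agent.helper83.SB
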